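import Pool.Agent.helper71.BT.CC
import Pool.Agent.helper92.BT.CE

/-! # Project EB, module CD: two balls, small scales only -/

set_option autoImplicit false

open MeasureTheory ProbabilityTheory Filter Topology
open scoped ENNReal NNReal

namespace Pool.Agent.helper32.EB

/-- inside function -/
noncomputable def CD_mi (G : Geo) (l : ℕ) (t : ℝ) : ℝ :=
  (Real.log t - Real.log (G.ρ - G.h)) / tt G (l - 1)

/-- position dependent factor -/
noncomputable def CD_F (G : Geo) (i j : Fin G.J) (l : ℕ) (z : ℂ) (s : HS G.J) : ℝ :=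
  if s.st i l = true then CD_mi G l ‖z - G.x i‖
    else if s.st j l = true then CD_mi G l ‖z - G.x j‖ else 1

/-- history dependent factor -/
noncomputable def CD_A (G : Geo) (i j : Fin G.J) (l : ℕ) (s : HS G.J) : ℝ :=
  mu G l ^ (s.cnt i l + s.cnt j l)

open Classical in
/-- the supersolution -/
noncomputable def CD_P (G : Geo) (i j : Fin G.J) (l : ℕ) (z : ℂ) (s : HS G.J) : ℝ≥0∞ :=
  if i ∈ s.U ∧ j ∈ s.U then ENNReal.ofReal (CD_A G i j l s * CD_F G i j l z s) else 0

theorem CD_P_meas (G : Geo) (i j : Fin G.J) (l : ℕ) (s : HS G.J) :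
    Measurable (fun z => CD_P G i j l z (updH G z s)) := by
  unfold CD_P
  refine Measurable.ite ((CE_meas_U G s i).inter (CE_meas_U G s j)) ?_ measurable_const
  refine ENNReal.measurable_ofReal.comp (Measurable.mul ?_ ?_)
  · unfold CD_A
    exact (measurable_from_top (f := fun n : ℕ => mu G l ^ n)).comp
        ((CE_meas_cnt G s i l).add (CE_meas_cnt G s j l))
  · unfold CD_F
    refine Measurable.ite (CE_meas_st G s i l) ?_ ?_
    · unfold CD_mi
      fun_prop
    · refine Measurable.ite (CE_meas_st G s j l) ?_ measurable_const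
      unfold CD_mi
      fun_prop

theorem CD_P_le (G : Geo) (i j : Fin G.J) (l : ℕ) (z : ℂ) (s : HS G.J)
    (T : ℝ) (h : i ∈ s.U → j ∈ s.U → CD_A G i j l s * CD_F G i j l z s ≤ T) :
    CD_P G i j l z s ≤ ENNReal.ofReal T := by
  unfold CD_P
  split_ifs with h1
  · exact ENNReal.ofReal_le_ofReal (h h1.1 h1.2)
  · exact zero_le

theorem CD_A_eq (G : Geo) (i j : Fin G.J) (l : ℕ) (s s' : HS G.J) (e2 e3 : ℕ)
    (h2 : s'.cnt i l = s.cnt i l + e2) (h3 : s'.cnt j l = s.cnt j l + e3) :
    CD_A G i j l s' = mu G l ^ (e2 + e3) * CD_A G i j l s := by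
  unfold CD_A
  rw [h2, h3]
  ring

/-- numerical facts -/
structure CD_Num (G : Geo) (i j : Fin G.J) (l : ℕ) : Prop where
  hh : 0 < G.h
  hρ : 8 * G.h ≤ G.ρ
  a1 : 8 * G.R l ≤ G.R (l - 1)
  a2 : 8 * G.ρ ≤ G.R l
  a3 : 8 * G.R (l - 1) ≤ 2 * G.r
  big : 8 * G.r ≤ G.R'
  xi : ‖G.x i‖ ≤ 3 / 8 * G.r
  xj : ‖G.x j‖ ≤ 3 / 8 * G.r
  d1 : 2 * G.R (l - 1) < ‖G.x i - G.x j‖
  mu0 : 0 < mu G l
  m1 : ∀ t, G.ρ < t → t ≤ G.R l → mu G l * CD_mi G l t ≤ 1
  m2 : ∀ t, G.R (l - 1) ≤ t → 1 ≤ CD_mi G l t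
  m0 : ∀ t, G.ρ - G.h < t → 0 ≤ CD_mi G l t

theorem CD_num {G : Geo} (hG : G.OK) (i j : Fin G.J) (l : ℕ) (hl : 2 ≤ l) (hlK : l + 1 ≤ G.K)
    (hij : 2 * G.R (l - 1) < ‖G.x i - G.x j‖) : CD_Num G i j l := by
  have hh := hG.hpos
  have hhρ := hG.hρ
  have hρ := CB_ρpos hG
  have h1 := hG.dec (l - 1) (by omega)
  rw [Nat.sub_add_cancel (by omega)] at h1
  have h2 := hG.dec l (by omega)
  have h3 := CB_Rpos hG (l + 1) (by omega)
  have h4 := hG.dec (l - 1 - 1) (by omega)
  rw [Nat.sub_add_cancel (by omega)] at h4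
  have h5 := CC_Rle hG (l - 1 - 1) (by omega)
  have p1 : (0 : ℝ) < G.ρ - G.h := by linarith
  have p5 : (0 : ℝ) < G.R l := by linarith
  have p6 : (0 : ℝ) < G.R (l - 1) := by linarith
  have e0 : tt G (l - 1) = Real.log (G.R (l - 1)) - Real.log (G.ρ - G.h) := by
    unfold tt; rw [Real.log_div p6.ne' p1.ne']
  have e1 : tt G l = Real.log (G.R l) - Real.log (G.ρ - G.h) := by
    unfold tt; rw [Real.log_div p5.ne' p1.ne']
  have i1 : Real.log (G.ρ - G.h) < Real.log (G.R l) := Real.log_lt_log p1 (by linarith)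
  have i2 : Real.log (G.ρ - G.h) < Real.log (G.R (l - 1)) := Real.log_lt_log p1 (by linarith)
  have T1 : 0 < tt G l := by rw [e1]; linarith
  have T0 : 0 < tt G (l - 1) := by rw [e0]; linarith
  refine ⟨hh, hhρ, h1, by linarith, by linarith, hG.big, hG.xs i, hG.xs j, hij, ?_, ?_, ?_, ?_⟩
  · unfold mu
    positivity
  · intro t ht1 ht2
    unfold mu CD_mi
    have e2 : tt G (l - 1) / tt G l * ((Real.log t - Real.log (G.ρ - G.h)) / tt G (l - 1)) =
        (Real.log t - Real.log (G.ρ - G.h)) / tt G l := by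
      field_simp
    rw [e2, div_le_one T1, e1]
    have := Real.log_le_log (by linarith) ht2
    linarith
  · intro t ht
    unfold CD_mi
    rw [le_div_iff₀ T0, one_mul, e0]
    have := Real.log_le_log p6 ht
    linarith
  · intro t ht
    refine div_nonneg ?_ T0.le
    have := Real.log_le_log p1 ht.le
    linarith

theorem CD_A_nonneg {G : Geo} {i j : Fin G.J} {l : ℕ} (N : CD_Num G i j l) (s : HS G.J) :
    0 ≤ CD_A G i j l s := by
  unfold CD_A
  have := N.mu0
  positivity

/-- symmetry -/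
theorem CD_P_symm {G : Geo} {i j : Fin G.J} {l : ℕ} (z : ℂ) (s : HS G.J)
    (h : ¬ (s.st i l = true ∧ s.st j l = true)) : CD_P G i j l z s = CD_P G j i l z s := by
  unfold CD_P
  have e1 : (i ∈ s.U ∧ j ∈ s.U) ↔ (j ∈ s.U ∧ i ∈ s.U) := and_comm
  simp only [e1]
  have e2 : CD_A G i j l s = CD_A G j i l s := by
    unfold CD_A
    rw [add_comm]
  have e3 : CD_F G i j l z s = CD_F G j i l z s := by
    unfold CD_F
    by_cases h1 : s.st i l = true <;> by_cases h2 : s.st j l = true
    · exact absurd ⟨h1, h2⟩ h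
    · simp [h1, h2]
    · simp [h1, h2]
    · simp [h1, h2]
  rw [e2, e3]

/-- at most one crossing is in progress after the step -/
theorem CD_excl {G : Geo} {i j : Fin G.J} {l : ℕ} (N : CD_Num G i j l) (z : ℂ) (s : HS G.J) :
    ¬ ((updH G z s).st i l = true ∧ (updH G z s).st j l = true) := by
  have key : ∀ k : Fin G.J, (updH G z s).st k l = true → ‖z - G.x k‖ < G.R (l - 1) := by
    intro k hk
    cases hst : s.st k l
    · have h1 : ‖z - G.x k‖ ≤ G.R l := by
        by_contra h
        have := (CE_st_out_out G z s k l hst (not_le.1 h)).1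
        rw [this] at hk
        exact absurd hk (by simp)
      linarith [N.a1, N.a2, N.hρ, N.hh]
    · by_contra h
      have := (CE_st_in_out G z s k l hst (not_lt.1 h)).1
      rw [this] at hk
      exact absurd hk (by simp)
  rintro ⟨h1, h2⟩
  have h3 := key i h1
  have h4 := key j h2
  have h5 := CE_tri4 z (G.x i) (G.x j)
  linarith [N.d1]

/-- one step, crossing around `x i` in progress -/
theorem CD_step_in {G : Geo} {ν : Measure ℂ} (hν : RotStep ν G.h) {i j : Fin G.J} {l : ℕ}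
    (hl : 2 ≤ l) (hlK : l + 1 ≤ G.K) (N : CD_Num G i j l) (z : ℂ)
    (s : HS G.J) (hv : Val G z s) (hst : s.st i l = true)
    (hU : i ∈ s.U ∧ j ∈ s.U) :
    ∫⁻ y, CD_P G i j l (z + y) (updH G (z + y) s) ∂ν ≤ CD_P G i j l z s := by
  have hw : ‖z - G.x i‖ < G.R (l - 1) := (hv.2 i l (by omega) (by omega)).1 hst
  have hwρ : G.ρ < ‖z - G.x i‖ := hv.1 i hU.1
  have hstj : s.st j l = false := by
    by_contra h
    have h1 := (hv.2 j l (by omega) (by omega)).1 (by simpa using h)
    have h5 := CE_tri4 z (G.x i) (G.x j)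
    linarith [N.d1]
  have hA := CD_A_nonneg N s
  have hval : ∀ t : ℝ, CD_A G i j l s * CD_mi G l t =
      -(CD_A G i j l s * (Real.log (G.ρ - G.h) / tt G (l - 1))) +
        (CD_A G i j l s / tt G (l - 1)) * Real.log t := by
    intro t
    unfold CD_mi
    ring
  have hR : CD_P G i j l z s = ENNReal.ofReal (CD_A G i j l s * CD_mi G l ‖z - G.x i‖) := by
    unfold CD_P
    rw [if_pos hU]
    unfold CD_F
    rw [if_pos hst]
  rw [hR, hval]
  have e1 : ∀ y : ℂ, z - G.x i + y = z + y - G.x i := fun y => by ring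
  apply CE_int hν N.hh _ (by linarith [N.hρ, N.hh])
  · intro y hy
    rw [← hval, e1]
    have h1 := CE_tri1 z y (G.x i)
    exact mul_nonneg hA (N.m0 _ (by linarith))
  · intro y hy
    rw [← hval, e1]
    have h2 := CE_tri2 z y (G.x i)
    have h5 := CE_tri4 (z + y) (G.x i) (G.x j)
    have hj3 := CE_st_out_out G (z + y) s j l hstj
      (by linarith [N.a1, N.a2, N.hρ, N.hh, N.d1])
    apply CD_P_le
    intro _ _
    rcases lt_or_ge ‖z + y - G.x i‖ (G.R (l - 1)) with h4 | h4
    · have hik := CE_st_in_in G (z + y) s i l hst h4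
      rw [CD_A_eq G i j l s (updH G (z + y) s) 0 0 (by rw [hik.2]; rfl) (by rw [hj3.2]; rfl)]
      unfold CD_F
      rw [if_pos hik.1]
      simp
    · have hik := CE_st_in_out G (z + y) s i l hst h4
      rw [CD_A_eq G i j l s (updH G (z + y) s) 0 0 (by rw [hik.2]; rfl) (by rw [hj3.2]; rfl)]
      unfold CD_F
      rw [hik.1, hj3.1]
      simp only [Bool.false_eq_true, if_false, add_zero, pow_zero, one_mul]
      exact mul_le_mul_of_nonneg_left (N.m2 _ h4) hA

/-- one step, no crossing in progress -/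
theorem CD_step_out {G : Geo} {ν : Measure ℂ} (hν : RotStep ν G.h) {i j : Fin G.J} {l : ℕ}
    (N : CD_Num G i j l) (z : ℂ)
    (s : HS G.J) (hsti : s.st i l = false) (hstj : s.st j l = false)
    (hU : i ∈ s.U ∧ j ∈ s.U) :
    ∫⁻ y, CD_P G i j l (z + y) (updH G (z + y) s) ∂ν ≤ CD_P G i j l z s := by
  have hA := CD_A_nonneg N s
  have hR : CD_P G i j l z s = ENNReal.ofReal (CD_A G i j l s) := by
    unfold CD_P
    rw [if_pos hU]
    unfold CD_F
    rw [hsti, hstj]
    simp
  rw [hR]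
  apply CE_int_const hν
  intro y hy
  apply CD_P_le
  intro hi' hj'
  have hρi := ((CE_mem_U G (z + y) s i).1 hi').2
  have hρj := ((CE_mem_U G (z + y) s j).1 hj').2
  have h5 := CE_tri4 (z + y) (G.x i) (G.x j)
  rcases le_or_gt ‖z + y - G.x i‖ (G.R l) with h4 | h4
  · have hik := CE_st_out_in G (z + y) s i l hsti h4
    have hj3 := CE_st_out_out G (z + y) s j l hstj
      (by linarith [N.a1, N.a2, N.hρ, N.hh, N.d1])
    rw [CD_A_eq G i j l s (updH G (z + y) s) 1 0 hik.2 (by rw [hj3.2]; rfl)]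
    unfold CD_F
    rw [if_pos hik.1]
    simp only [add_zero, pow_one]
    have h6 := N.m1 _ hρi h4
    calc mu G l * CD_A G i j l s * CD_mi G l ‖z + y - G.x i‖ =
        CD_A G i j l s * (mu G l * CD_mi G l ‖z + y - G.x i‖) := by ring
      _ ≤ CD_A G i j l s * 1 := mul_le_mul_of_nonneg_left h6 hA
      _ = _ := mul_one _
  · have hi3 := CE_st_out_out G (z + y) s i l hsti h4
    rcases le_or_gt ‖z + y - G.x j‖ (G.R l) with h7 | h7
    · have hjk := CE_st_out_in G (z + y) s j l hstj h7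
      rw [CD_A_eq G i j l s (updH G (z + y) s) 0 1 (by rw [hi3.2]; rfl) hjk.2]
      unfold CD_F
      rw [hi3.1, if_pos hjk.1]
      simp only [Bool.false_eq_true, if_false, zero_add, pow_one]
      have h6 := N.m1 _ hρj h7
      calc mu G l * CD_A G i j l s * CD_mi G l ‖z + y - G.x j‖ =
          CD_A G i j l s * (mu G l * CD_mi G l ‖z + y - G.x j‖) := by ring
        _ ≤ CD_A G i j l s * 1 := mul_le_mul_of_nonneg_left h6 hA
        _ = _ := mul_one _
    · have hj3 := CE_st_out_out G (z + y) s j l hstj h7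
      rw [CD_A_eq G i j l s (updH G (z + y) s) 0 0 (by rw [hi3.2]; rfl) (by rw [hj3.2]; rfl)]
      unfold CD_F
      rw [hi3.1, hj3.1]
      simp

open Classical in
/-- two balls, small scales only -/
theorem super_micro (G : Geo) (hG : G.OK) {ν : Measure ℂ} (hν : RotStep ν G.h) (i j : Fin G.J)
    (l : ℕ) (hl : 2 ≤ l) (hlK : l + 1 ≤ G.K) (hij : 2 * G.R (l - 1) < ‖G.x i - G.x j‖) :
    ∃ Pa, SuperC G ν Pa (fun _ s => if i ∈ s.U ∧ j ∈ s.U then
      ENNReal.ofReal (mu G l ^ (s.cnt i l + s.cnt j l)) else 0) := by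
  have N := CD_num hG i j l hl hlK hij
  have hρ := CB_ρpos hG
  refine ⟨fun _ z s => CD_P G i j l z s, ?_, ?_, ?_, ?_⟩
  · intro m s
    exact CD_P_meas G i j l s
  · intro m z s hz hv
    by_cases hU : i ∈ s.U ∧ j ∈ s.U
    · cases hsi : s.st i l
      · cases hsj : s.st j l
        · exact CD_step_out hν N z s hsi hsj hU
        · have N' := CD_num hG j i l hl hlK (by rw [norm_sub_rev]; exact hij)
          have h1 := CD_step_in hν hl hlK N' z s hv hsj ⟨hU.2, hU.1⟩
          have h2 : CD_P G i j l z s = CD_P G j i l z s := CD_P_symm z s (by rw [hsi]; simp)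
          have h3 : ∀ y : ℂ, CD_P G i j l (z + y) (updH G (z + y) s) =
              CD_P G j i l (z + y) (updH G (z + y) s) :=
            fun y => CD_P_symm _ _ (CD_excl N _ _)
          simp only [h2, h3]
          exact h1
      · exact CD_step_in hν hl hlK N z s hv hsi hU
    · have h1 : ∀ y : ℂ, CD_P G i j l (z + y) (updH G (z + y) s) = 0 := by
        intro y
        unfold CD_P
        rw [if_neg]
        rw [CE_mem_U, CE_mem_U]
        exact fun h => hU ⟨h.1.1, h.2.1⟩
      simp only [h1, lintegral_zero]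
      exact bot_le
  · intro m z s hz1 hz2
    have key : ∀ k : Fin G.J, ‖G.x k‖ ≤ 3 / 8 * G.r → (updH G z s).st k l = false := by
      intro k hk
      have h1 := CB_le_norm hG k z
      have h2 : G.R (l - 1) ≤ ‖z - G.x k‖ := by
        linarith [N.a3, N.big, N.a1, N.a2, N.hρ, N.hh]
      cases hst : s.st k l
      · exact (CE_st_out_out G z s k l hst (by linarith [N.a1, N.a2, N.hρ, N.hh])).1
      · exact (CE_st_in_out G z s k l hst h2).1
    have e1 : CD_F G i j l z (updH G z s) = 1 := by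
      unfold CD_F
      rw [key i N.xi, key j N.xj]
      simp
    show (if i ∈ (updH G z s).U ∧ j ∈ (updH G z s).U then
      ENNReal.ofReal (mu G l ^ ((updH G z s).cnt i l + (updH G z s).cnt j l)) else 0) ≤
      CD_P G i j l z (updH G z s)
    unfold CD_P
    rw [e1, mul_one]
    exact le_refl _
  · intro m z s hidle hz1 hz2
    have key : ∀ k : Fin G.J, ‖G.x k‖ ≤ 3 / 8 * G.r → (updH G z s).st k l = false ∧
        (updH G z s).cnt k l = s.cnt k l := by
      intro k hk
      have h1 := CB_le_norm hG k z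
      exact CE_st_out_out G z s k l (hidle k l (by omega) (by omega))
        (by linarith [N.a3, N.big, N.a1, N.a2, N.hρ, N.hh])
    have e1 : CD_F G i j l z (updH G z s) = 1 := by
      unfold CD_F
      rw [(key i N.xi).1, (key j N.xj).1]
      simp
    have e2 : CD_A G i j l (updH G z s) = CD_A G i j l s := by
      unfold CD_A
      rw [(key i N.xi).2, (key j N.xj).2]
    show CD_P G i j l z (updH G z s) ≤ (if i ∈ s.U ∧ j ∈ s.U then
      ENNReal.ofReal (mu G l ^ (s.cnt i l + s.cnt j l)) else 0)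
    unfold CD_P
    rw [e1, e2, mul_one]
    by_cases h1 : i ∈ (updH G z s).U ∧ j ∈ (updH G z s).U
    · rw [if_pos h1, if_pos ⟨((CE_mem_U G z s i).1 h1.1).1, ((CE_mem_U G z s j).1 h1.2).1⟩]
      exact le_refl _
    · rw [if_neg h1]
      exact bot_le

end Pool.Agent.helper32.EB
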