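import Pool.Agent.helper71.BT.CC
import Pool.Agent.helper92.BT.CE

/-! # Project EB, module CF: one ball, supersolution for no hit -/

set_option autoImplicit false

open MeasureTheory ProbabilityTheory Filter Topology
open scoped ENNReal NNReal

namespace Pool.Agent.helper32.EB

/-- the function of the distance -/
noncomputable def CF_f (G : Geo) (v : ℝ) : ℝ :=
  (Real.log v - Real.log (G.ρ - G.h)) / Real.log ((G.R' - G.r) / (G.ρ - G.h))

theorem CF_num {G : Geo} (hG : G.OK) :
    0 < G.ρ - G.h ∧ 0 < Real.log ((G.R' - G.r) / (G.ρ - G.h)) ∧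
    (∀ v, G.ρ - G.h < v → 0 ≤ CF_f G v) ∧ (∀ v, G.R' - G.r ≤ v → 1 ≤ CF_f G v) ∧
    (∀ v, 0 < v → v ≤ 2 * G.r → CF_f G v ≤ cmn G) ∧ 0 ≤ cmn G := by
  have hh := hG.hpos
  have hhρ := hG.hρ
  have hρ := CB_ρpos hG
  obtain ⟨hrρ, hr⟩ := CB_rρ hG
  have hbig := hG.big
  have p1 : (0 : ℝ) < G.ρ - G.h := by linarith
  have p3 : (0 : ℝ) < G.R' - G.r := by linarith
  have p7 : (0 : ℝ) < 2 * G.r := by linarith
  have hA : 0 < Real.log ((G.R' - G.r) / (G.ρ - G.h)) := by
    apply Real.log_pos
    rw [lt_div_iff₀ p1]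
    linarith
  have eA : Real.log ((G.R' - G.r) / (G.ρ - G.h)) =
      Real.log (G.R' - G.r) - Real.log (G.ρ - G.h) := Real.log_div p3.ne' p1.ne'
  have eB : Real.log ((G.R' - G.r) / (2 * G.r)) =
      Real.log (G.R' - G.r) - Real.log (2 * G.r) := Real.log_div p3.ne' p7.ne'
  have ec : cmn G = CF_f G (2 * G.r) := by
    unfold cmn CF_f
    rw [eq_div_iff hA.ne', sub_mul, one_mul, div_mul_cancel₀ _ hA.ne', eA, eB]
    ring
  have hf0 : ∀ v, G.ρ - G.h < v → 0 ≤ CF_f G v := by
    intro v hv
    refine div_nonneg ?_ hA.le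
    have := Real.log_le_log p1 hv.le
    linarith
  refine ⟨p1, hA, hf0, ?_, ?_, ?_⟩
  · intro v hv
    unfold CF_f
    rw [le_div_iff₀ hA, one_mul, eA]
    have := Real.log_le_log p3 hv
    linarith
  · intro v hv0 hv
    rw [ec]
    unfold CF_f
    refine div_le_div_of_nonneg_right ?_ hA.le
    have := Real.log_le_log hv0 hv
    linarith
  · rw [ec]
    exact hf0 _ (by linarith)

open Classical in
/-- one ball -/
theorem super_close (G : Geo) (hG : G.OK) {ν : Measure ℂ} (hν : RotStep ν G.h) (i : Fin G.J) :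
    ∃ Pa, SuperC G ν Pa (fun m s => if i ∈ s.U then ENNReal.ofReal (cmn G ^ m) else 0) := by
  obtain ⟨p1, hA, hf0, hf1, hf2, hc⟩ := CF_num hG
  have hh := hG.hpos
  have hhρ := hG.hρ
  have hρ := CB_ρpos hG
  obtain ⟨hrρ, hr⟩ := CB_rρ hG
  have hbig := hG.big
  have hcm : ∀ m : ℕ, 0 ≤ cmn G ^ m := fun m => pow_nonneg hc m
  refine ⟨fun m z s => if i ∈ s.U then
    ENNReal.ofReal (CF_f G ‖z - G.x i‖ * cmn G ^ m) else 0, ?_, ?_, ?_, ?_⟩
  · intro m s
    refine Measurable.ite (CE_meas_U G s i) ?_ measurable_const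
    refine ENNReal.measurable_ofReal.comp (Measurable.mul ?_ measurable_const)
    unfold CF_f
    fun_prop
  · intro m z s hz hv
    by_cases hi : i ∈ s.U
    · rw [if_pos hi]
      have hw : G.ρ < ‖z - G.x i‖ := hv.1 i hi
      have hval : ∀ w : ℂ, CF_f G ‖w‖ * cmn G ^ m =
          -(Real.log (G.ρ - G.h) / Real.log ((G.R' - G.r) / (G.ρ - G.h)) * cmn G ^ m) +
          (cmn G ^ m / Real.log ((G.R' - G.r) / (G.ρ - G.h))) * Real.log ‖w‖ := by
        intro w
        unfold CF_f
        ring
      rw [hval]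
      have hn : ∀ y : ℂ, ‖y‖ < G.h → G.ρ - G.h < ‖z - G.x i + y‖ := by
        intro y hy
        have h3 := norm_sub_le_norm_add (z - G.x i) y
        linarith
      apply CE_int hν hh _ (by linarith)
      · intro y hy
        rw [← hval]
        exact mul_nonneg (hf0 _ (hn y hy)) (hcm m)
      · intro y hy
        rw [← hval]
        by_cases hm : i ∈ (updH G (z + y) s).U
        · rw [if_pos hm]
          have e1 : z + y - G.x i = z - G.x i + y := by ring
          rw [e1]
        · rw [if_neg hm]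
          exact bot_le
    · have h1 : ∀ y : ℂ, (if i ∈ (updH G (z + y) s).U then
          ENNReal.ofReal (CF_f G ‖z + y - G.x i‖ * cmn G ^ m) else 0) = 0 := by
        intro y
        rw [if_neg]
        rw [CB_mem]
        exact fun h => hi h.1
      simp only [h1, lintegral_zero]
      exact bot_le
  · intro m z s hz1 hz2
    by_cases hm : i ∈ (updH G z s).U
    · simp only [if_pos hm]
      apply ENNReal.ofReal_le_ofReal
      have h1 := CB_le_norm hG i z
      calc cmn G ^ m = 1 * cmn G ^ m := (one_mul _).symm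
        _ ≤ _ := mul_le_mul_of_nonneg_right (hf1 _ (by linarith)) (hcm m)
    · simp only [if_neg hm]
      exact le_refl _
  · intro m z s hidle hz1 hz2
    by_cases hi : i ∈ s.U
    · have h1 := CB_le_norm hG i z
      have h1' := CB_norm_le hG i z
      have hm : i ∈ (updH G z s).U := by
        rw [CB_mem]
        exact ⟨hi, by linarith⟩
      simp only [if_pos hi, if_pos hm]
      apply ENNReal.ofReal_le_ofReal
      rw [pow_succ, mul_comm (cmn G ^ m)]
      exact mul_le_mul_of_nonneg_right (hf2 _ (by linarith) (by linarith)) (hcm m)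
    · have hm : ¬ i ∈ (updH G z s).U := by
        rw [CB_mem]
        exact fun h => hi h.1
      simp only [if_neg hi, if_neg hm]
      exact le_refl _

end Pool.Agent.helper32.EB
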